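import Pool.Agent.Results.MP_8c175f_gt.LargeWeakLindelofNumber

/-!
# Almost discretely Lindelöf `T₁` spaces that are not weakly Lindelöf

The space is the disjoint sum of a discretely Lindelöf `T₁` space of large weak Lindelöf number
(starting file MP_8c175f_gt/LargeWeakLindelofNumber) and of an uncountable `T₁` space all of whose
discrete subspaces are countable, but which is not discretely Lindelöf.
-/

set_option autoImplicit false

open Set Topology Cardinal

namespace Pool.Agent.Results.MP_a09c40_gt.AlmostNotWeakly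

/-- `ω₁` as a type -/
abbrev Om : Type := (Order.succ (ℵ₀ : Cardinal.{0})).ord.ToType

lemma countable_Iio (x : Om) : (Set.Iio x).Countable := by
  have h : #(Set.Iio x) < Order.succ (ℵ₀ : Cardinal.{0}) := by simpa using Cardinal.mk_Iio_lt x
  rw [Order.lt_succ_iff] at h
  exact Cardinal.le_aleph0_iff_set_countable.mp h

lemma countable_Iic (x : Om) : (Set.Iic x).Countable := by
  have : Set.Iic x = insert x (Set.Iio x) := by
    ext y; simp [le_iff_eq_or_lt]
  rw [this]
  exact (countable_Iio x).insert x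

lemma not_countable_univ : ¬ (Set.univ : Set Om).Countable := by
  intro h
  have h1 := Cardinal.le_aleph0_iff_set_countable.mpr h
  rw [Cardinal.mk_univ, Cardinal.mk_toType, Cardinal.card_ord] at h1
  exact absurd (Order.lt_succ (ℵ₀ : Cardinal.{0})) (not_lt.mpr h1)

/-- `ω₁` with the topology in which `U` is open if `Iic x \\ U` is finite for each `x ∈ U` -/
structure S : Type where
  /-- the point -/
  val : Om

instance : TopologicalSpace S where
  IsOpen U := ∀ x ∈ U, {y : S | y.val ≤ x.val ∧ y ∉ U}.Finite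
  isOpen_univ := by
    intro x _
    simp
  isOpen_inter := by
    intro U V hU hV x hx
    apply ((hU x hx.1).union (hV x hx.2)).subset
    rintro y ⟨h1, h2⟩
    by_cases h3 : y ∈ U
    · exact Or.inr ⟨h1, fun h4 => h2 ⟨h3, h4⟩⟩
    · exact Or.inl ⟨h1, h3⟩
  isOpen_sUnion := by
    intro s hs x hx
    obtain ⟨U, hU, hxU⟩ := hx
    apply (hs U hU x hxU).subset
    rintro y ⟨h1, h2⟩
    exact ⟨h1, fun h3 => h2 ⟨U, hU, h3⟩⟩

lemma isOpen_def (U : Set S) : IsOpen U ↔ ∀ x ∈ U, {y : S | y.val ≤ x.val ∧ y ∉ U}.Finite := Iff.rfl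

instance : T1Space S := by
  refine ⟨fun x => ?_⟩
  rw [← isOpen_compl_iff, isOpen_def]
  intro y _
  apply (Set.finite_singleton x).subset
  rintro z ⟨_, h2⟩
  simpa using h2

lemma isOpen_Iic (a : Om) : IsOpen {x : S | x.val ≤ a} := by
  rw [isOpen_def]
  intro x hx
  have : {y : S | y.val ≤ x.val ∧ y ∉ {x : S | x.val ≤ a}} = ∅ := by
    ext y
    simp only [mem_ofPred_eq, mem_empty_iff_false, iff_false, not_and, not_not]
    intro h
    exact h.trans hx
  rw [this]
  exact Set.finite_empty

/-- discrete subspaces are countable -/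
lemma countable_of_discrete (D : Set S) (hD : DiscreteTopology D) : D.Countable := by
  have hfin : ∀ d ∈ D, {y : S | y ∈ D ∧ y.val ≤ d.val}.Finite := by
    intro d hd
    have h1 : IsOpen ({⟨d, hd⟩} : Set D) := isOpen_discrete _
    obtain ⟨U, hU, hUd⟩ := isOpen_induced_iff.mp h1
    have hdU : d ∈ U := by
      have : (⟨d, hd⟩ : D) ∈ Subtype.val ⁻¹' U := by rw [hUd]; rfl
      exact this
    have h2 := (isOpen_def U).mp hU d hdU
    apply (h2.union (Set.finite_singleton d)).subset
    rintro y ⟨hy1, hy2⟩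
    by_cases hyU : y ∈ U
    · right
      have : (⟨y, hy1⟩ : D) ∈ Subtype.val ⁻¹' U := hyU
      rw [hUd] at this
      exact congrArg Subtype.val this
    · left
      exact ⟨hy2, hyU⟩
  let f : D → ℕ := fun d => (hfin d.1 d.2).toFinset.card
  have hf : Function.Injective f := by
    have hmono : ∀ d e : D, d.1.val < e.1.val → f d < f e := by
      intro d e hde
      apply Finset.card_lt_card
      rw [Finset.ssubset_iff_of_subset]
      · refine ⟨e.1, ?_, ?_⟩
        · rw [Set.Finite.mem_toFinset]
          exact ⟨e.2, le_rfl⟩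
        · rw [Set.Finite.mem_toFinset]
          rintro ⟨_, h⟩
          exact absurd hde (not_lt.mpr h)
      · intro y hy
        rw [Set.Finite.mem_toFinset] at hy ⊢
        exact ⟨hy.1, hy.2.trans hde.le⟩
    intro d e hde
    rcases lt_trichotomy d.1.val e.1.val with h | h | h
    · exact absurd hde (hmono d e h).ne
    · apply Subtype.ext
      cases hd : d.1
      cases he : e.1
      rw [hd, he] at h
      simpa using h
    · exact absurd hde.symm (hmono e d h).ne
  have : Countable D := hf.countable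
  exact Set.countable_coe_iff.mp this

/-- the first `ω` points -/
def D0 : Set S := {x | (Set.Iio x.val).Finite}

lemma isOpen_of_subset_D0 {A : Set S} (hA : A ⊆ D0) : IsOpen A := by
  rw [isOpen_def]
  intro x hx
  have h1 : (Set.Iic x.val).Finite := by
    have : Set.Iic x.val = insert x.val (Set.Iio x.val) := by
      ext y; simp [le_iff_eq_or_lt]
    rw [this]
    exact (hA hx).insert _
  have h2 : (S.mk '' Set.Iic x.val).Finite := h1.image _
  apply h2.subset
  rintro y ⟨hy, _⟩
  exact ⟨y.val, hy, rfl⟩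

lemma discrete_D0 : DiscreteTopology D0 := by
  rw [discreteTopology_iff_forall_isOpen]
  intro s
  rw [isOpen_induced_iff]
  refine ⟨Subtype.val '' s, isOpen_of_subset_D0 ?_, ?_⟩
  · rintro _ ⟨x, _, rfl⟩
    exact x.2
  · exact Set.preimage_image_eq _ Subtype.val_injective

lemma infinite_D0 : D0.Infinite := by
  intro hfin
  -- the least element outside
  have hne : {a : Om | (⟨a⟩ : S) ∉ D0}.Nonempty := by
    by_contra hcon
    rw [Set.not_nonempty_iff_eq_empty] at hcon
    apply not_countable_univ
    have : (Set.univ : Set Om) ⊆ S.val '' D0 := by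
      intro a _
      refine ⟨⟨a⟩, ?_, rfl⟩
      by_contra h
      have : a ∈ {a : Om | (⟨a⟩ : S) ∉ D0} := h
      rw [hcon] at this
      exact this
    exact ((hfin.image _).countable).mono this
  set m := WellFounded.min (wellFounded_lt (α := Om)) _ hne with hm
  have hmD : (⟨m⟩ : S) ∉ D0 := WellFounded.min_mem _ _ hne
  apply hmD
  change (Set.Iio m).Finite
  apply (hfin.image S.val).subset
  intro a ha
  refine ⟨⟨a⟩, ?_, rfl⟩
  by_contra h
  exact WellFounded.not_lt_min (wellFounded_lt (α := Om)) _ h ha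

lemma closure_D0 : closure D0 = Set.univ := by
  apply Set.eq_univ_of_forall
  intro x
  by_cases hx : x ∈ D0
  · exact subset_closure hx
  rw [mem_closure_iff]
  intro U hU hxU
  have h1 := (isOpen_def U).mp hU x hxU
  by_contra hcon
  rw [Set.not_nonempty_iff_eq_empty] at hcon
  apply infinite_D0
  apply h1.subset
  intro y hy
  refine ⟨?_, ?_⟩
  · by_contra h
    push Not at h
    apply hx
    exact (show (Set.Iio y.val).Finite from hy).subset (Set.Iio_subset_Iio h.le)
  · intro hyU
    have : y ∈ U ∩ D0 := ⟨hyU, hy⟩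
    rw [hcon] at this
    exact this

lemma not_lindelof : ¬ IsLindelof (Set.univ : Set S) := by
  intro h
  obtain ⟨r, hr, hcov⟩ := h.elim_countable_subcover (fun a : Om => {x : S | x.val ≤ a})
    (fun a => isOpen_Iic a) (by
      intro x _
      exact Set.mem_iUnion.mpr ⟨x.val, (le_refl x.val : x.val ≤ x.val)⟩)
  apply not_countable_univ
  have : (Set.univ : Set Om) ⊆ ⋃ a ∈ r, Set.Iic a := by
    intro b _
    have hb := hcov (Set.mem_univ (⟨b⟩ : S))
    simp only [Set.mem_iUnion] at hb ⊢
    obtain ⟨a, ha, hab⟩ := hb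
    exact ⟨a, ha, hab⟩
  exact (hr.biUnion fun a _ => countable_Iic a).mono this

/-- For every infinite cardinal `μ` there is a `T₁` space `X` such that every discrete subset of `X`
is contained in a Lindelöf subspace (`X` is almost discretely Lindelöf), but some open cover of `X`
has no subfamily of cardinality at most `μ` with dense union (for `μ = ℵ₀`: `X` is not weakly
Lindelöf). Moreover `X` is not discretely Lindelöf. -/
theorem result (μ : Cardinal.{0}) (hμ : ℵ₀ ≤ μ) :
    ∃ (X : Type) (_ : TopologicalSpace X), T1Space X ∧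
      (∀ D : Set X, DiscreteTopology D → ∃ L : Set X, D ⊆ L ∧ IsLindelof L) ∧
      (∃ 𝒰 : Set (Set X), (∀ U ∈ 𝒰, IsOpen U) ∧ ⋃₀ 𝒰 = Set.univ ∧
        ∀ 𝒱 ⊆ 𝒰, #𝒱 ≤ μ → ¬ Dense (⋃₀ 𝒱)) ∧
      (∃ D : Set X, DiscreteTopology D ∧ ¬ IsLindelof (closure D)) := by
  obtain ⟨X, tX, hT1, hdl, -, -, ⟨𝒰, hU, hcov, hnd⟩, -⟩ :=
    Pool.Agent.Results.MP_8c175f_gt.LargeWeakLindelofNumber.result μ hμ
  refine ⟨X ⊕ S, inferInstance, ⟨?_⟩, ?_, ?_, ?_⟩
  · rintro (x | y)
    · rw [← Set.image_singleton]
      exact IsClosedEmbedding.inl.isClosedMap _ isClosed_singleton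
    · rw [← Set.image_singleton]
      exact IsClosedEmbedding.inr.isClosedMap _ isClosed_singleton
  · intro D hD
    have h1 : DiscreteTopology (Sum.inl ⁻¹' D : Set X) := by
      refine DiscreteTopology.of_continuous_injective (β := D)
        (f := fun x => ⟨Sum.inl x.1, x.2⟩) (by fun_prop) ?_
      intro x y hxy
      apply Subtype.ext
      exact Sum.inl_injective (congrArg Subtype.val hxy)
    have h2 : DiscreteTopology (Sum.inr ⁻¹' D : Set S) := by
      refine DiscreteTopology.of_continuous_injective (β := D)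
        (f := fun x => ⟨Sum.inr x.1, x.2⟩) (by fun_prop) ?_
      intro x y hxy
      apply Subtype.ext
      exact Sum.inr_injective (congrArg Subtype.val hxy)
    refine ⟨Sum.inl '' closure (Sum.inl ⁻¹' D) ∪ Sum.inr '' (Sum.inr ⁻¹' D), ?_, ?_⟩
    · rintro (x | y) hx
      · exact Or.inl ⟨x, subset_closure hx, rfl⟩
      · exact Or.inr ⟨y, hx, rfl⟩
    · apply IsLindelof.union
      · exact (isLindelof_iff_lindelofSpace.mpr (hdl _ h1)).image continuous_inl
      · exact ((countable_of_discrete _ h2).image _).isLindelof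
  · refine ⟨insert (Set.range Sum.inr) ((fun U => Sum.inl '' U) '' 𝒰), ?_, ?_, ?_⟩
    · rintro _ (rfl | ⟨U, hUU, rfl⟩)
      · exact isOpen_range_inr
      · exact isOpenMap_inl U (hU U hUU)
    · apply Set.eq_univ_of_forall
      rintro (x | y)
      · have hx : x ∈ ⋃₀ 𝒰 := by rw [hcov]; trivial
        obtain ⟨U, hUU, hxU⟩ := hx
        exact ⟨_, Or.inr ⟨U, hUU, rfl⟩, ⟨x, hxU, rfl⟩⟩
      · exact ⟨_, Or.inl rfl, ⟨y, rfl⟩⟩
    · intro 𝒱 h𝒱 hcard hdense
      refine hnd {U | U ∈ 𝒰 ∧ Sum.inl '' U ∈ 𝒱} (fun U h => h.1) ?_ ?_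
      · refine le_trans ?_ hcard
        refine Cardinal.mk_le_of_injective
          (f := fun U => (⟨Sum.inl '' U.1, U.2.2⟩ : 𝒱)) ?_
        intro U V hUV
        apply Subtype.ext
        exact Set.image_injective.mpr Sum.inl_injective (congrArg Subtype.val hUV)
      · rw [dense_iff_inter_open] at hdense ⊢
        intro W hW hWn
        obtain ⟨z, hz1, V, hV, hzV⟩ := hdense (Sum.inl '' W) (isOpenMap_inl W hW) (hWn.image _)
        obtain ⟨w, hw, rfl⟩ := hz1
        rcases h𝒱 hV with rfl | ⟨U, hUU, rfl⟩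
        · obtain ⟨y, hy⟩ := hzV
          cases hy
        · obtain ⟨u, hu, huw⟩ := hzV
          have : u = w := Sum.inl_injective huw
          subst this
          exact ⟨u, hw, U, ⟨hUU, hV⟩, hu⟩
  · refine ⟨Sum.inr '' D0, ?_, ?_⟩
    · rw [discreteTopology_iff_forall_isOpen]
      intro s
      rw [isOpen_induced_iff]
      refine ⟨Subtype.val '' s, ?_, Set.preimage_image_eq _ Subtype.val_injective⟩
      have : (Subtype.val '' s : Set (X ⊕ S)) = Sum.inr '' (Sum.inr ⁻¹' (Subtype.val '' s)) := by
        ext z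
        constructor
        · rintro ⟨w, hw, rfl⟩
          obtain ⟨d, hd, hdw⟩ := w.2
          exact ⟨d, by rw [Set.mem_preimage, hdw]; exact ⟨w, hw, rfl⟩, hdw⟩
        · rintro ⟨d, hd, rfl⟩
          exact hd
      rw [this]
      apply isOpenMap_inr
      apply isOpen_of_subset_D0
      rintro d ⟨w, hw, hwd⟩
      obtain ⟨d', hd', hdw⟩ := w.2
      have : d' = d := Sum.inr_injective (hdw.trans hwd)
      exact this ▸ hd'
    · intro h
      have hce : IsClosedEmbedding (Sum.inr : S → X ⊕ S) := IsClosedEmbedding.inr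
      have h1 : closure (Sum.inr '' D0 : Set (X ⊕ S)) = Sum.inr '' (Set.univ : Set S) := by
        rw [← closure_D0]
        exact hce.closure_image_eq D0
      rw [h1] at h
      have h2 : IsLindelof (Sum.inr ⁻¹' (Sum.inr '' (Set.univ : Set S)) : Set S) :=
        hce.isLindelof_preimage h
      rw [Set.preimage_image_eq _ Sum.inr_injective] at h2
      exact not_lindelof h2

end Pool.Agent.Results.MP_a09c40_gt.AlmostNotWeakly
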